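import Mathlib

namespace Pool.Agent.Results.MP_2f4170_nt.IfPart

open Polynomial

/-- `s n = 1 + 2x + 3x^2 + ... + (n+1)x^n` over the integers. -/
noncomputable def s (n : ℕ) : ℤ[X] := ∑ k ∈ Finset.range (n + 1), C ((k : ℤ) + 1) * X ^ k

/-- Parity: an even-degree extension of finite fields of odd characteristic has no basis with
square discriminant. -/
theorem stick {K L : Type} [Field K] [Fintype K] [Field L] [Algebra K L] [Finite L]
    (h2 : (2 : K) ≠ 0) (N m : ℕ) (b : Module.Basis (Fin N) K L) (hN : N = m + 1) (hm : Odd m)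
    (c : K) : Algebra.discr K b ≠ c ^ 2 := by
  classical
  subst hN
  intro hc
  have hfin : Module.finrank K L = m + 1 := by simpa using Module.finrank_eq_card_basis b
  set ψ := FiniteField.frobeniusAlgEquivOfAlgebraic K L with hψ
  have hord : orderOf ψ = m + 1 := by
    rw [← hfin]; exact FiniteField.orderOf_frobeniusAlgEquivOfAlgebraic K L
  have hbij : Function.Bijective fun j : Fin (m + 1) ↦ ψ ^ j.1 := by
    have h := FiniteField.bijective_frobeniusAlgEquivOfAlgebraic_pow K L
    have h' := Function.Bijective.comp h (finCongr hfin.symm).bijective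
    exact h'
  let M : Matrix (Fin (m + 1)) (Fin (m + 1)) L := Matrix.of fun i j => (ψ ^ j.1) (b i)
  have h1 : algebraMap K L (Algebra.discr K b) = M.det ^ 2 := by
    rw [Algebra.discr_def, RingHom.map_det, RingHom.mapMatrix_apply]
    have : (Algebra.traceMatrix K b).map (algebraMap K L) = M * M.transpose := by
      ext i j
      simp only [Matrix.map_apply, Algebra.traceMatrix_apply, Algebra.traceForm_apply,
        Matrix.mul_apply, Matrix.transpose_apply, M, Matrix.of_apply]
      rw [trace_eq_sum_automorphisms, ← hbij.sum_comp (fun σ : L ≃ₐ[K] L => σ (b i * b j))]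
      simp only [map_mul]
    rw [this, Matrix.det_mul, Matrix.det_transpose, pow_two]
  have h3 : ψ M.det = - M.det := by
    have e1 : ψ M.det = (M.map ψ).det := by
      have := RingHom.map_det (ψ : L →+* L) M
      simpa using this
    have e2 : M.map ψ = M.submatrix id (finRotate (m + 1)) := by
      ext i j
      simp only [Matrix.map_apply, Matrix.submatrix_apply, M, Matrix.of_apply, id]
      have : ψ ^ ((finRotate (m + 1) j).1) = ψ ^ (j.1 + 1) := by
        rw [finRotate_apply, Fin.val_add, Fin.val_one', Nat.add_mod_mod]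
        have h := pow_mod_orderOf ψ (j.1 + 1)
        rw [hord] at h
        exact h
      rw [this, pow_succ']
      rfl
    rw [e1, e2, Matrix.det_permute', sign_finRotate]
    simp [hm.neg_one_pow]
  have h4 : ψ M.det = M.det := by
    rw [hc, map_pow] at h1
    rcases sq_eq_sq_iff_eq_or_eq_neg.mp h1 with h | h
    · rw [← h]; exact ψ.commutes c
    · have h' : M.det = - algebraMap K L c := by rw [h]; ring
      rw [h', map_neg, ψ.commutes c]
  have h5 : (2 : L) * M.det = 0 := by linear_combination h3 - h4
  have h6 : (2 : L) ≠ 0 := by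
    intro h
    apply h2
    apply (algebraMap K L).injective
    rw [map_ofNat, map_zero, h]
  have h7 : M.det = 0 := (mul_eq_zero.mp h5).resolve_left h6
  apply Algebra.discr_not_zero_of_basis K b
  apply (algebraMap K L).injective
  rw [h1, h7]; simp

noncomputable def f (K : Type) [Field K] (n : ℕ) : K[X] :=
  ∑ k ∈ Finset.range (n + 1), C ((k : K) + 1) * X ^ k

theorem f_succ (K : Type) [Field K] (n : ℕ) :
    f K (n + 1) = f K n + C ((n : K) + 2) * X ^ (n + 1) := by
  unfold f
  rw [Finset.sum_range_succ]
  congr 3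
  push_cast; ring

theorem f_coeff (K : Type) [Field K] (n j : ℕ) :
    (f K n).coeff j = if j ≤ n then (j : K) + 1 else 0 := by
  unfold f
  simp only [finsetSum_coeff, coeff_C_mul, coeff_X_pow, mul_ite, mul_one, mul_zero]
  rw [Finset.sum_ite_eq]
  simp

theorem f_eval (K : Type) [Field K] (n : ℕ) :
    2 * (f K n).eval 1 = ((n : K) + 1) * ((n : K) + 2) := by
  induction n with
  | zero => simp [f]
  | succ n ih =>
    rw [f_succ]
    simp only [eval_add, eval_mul, eval_C, eval_pow, eval_X, one_pow]
    push_cast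
    linear_combination ih

theorem f_der (K : Type) [Field K] {L : Type} [Field L] [Algebra K L] (a : L) (n : ℕ) :
    (a - 1) * aeval a (derivative (f K n)) + 2 * aeval a (f K n)
      = ((n : L) + 1) * ((n : L) + 2) * a ^ n := by
  induction n with
  | zero => simp [f]
  | succ n ih =>
    rw [f_succ, derivative_add, derivative_C_mul, derivative_X_pow]
    simp only [map_add, map_mul, map_pow, aeval_X, map_natCast, map_ofNat, Nat.add_sub_cancel]
    push_cast
    linear_combination ih

theorem not_irr (K : Type) [Field K] [Fintype K] (k : ℕ) (hk : 1 ≤ k) :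
    ¬ Irreducible (f K (8 * k * (k + 1))) := by
  classical
  intro hirr
  obtain ⟨n, hn⟩ : ∃ n, n = 8 * k * (k + 1) := ⟨_, rfl⟩
  rw [← hn] at hirr
  have hn16 : 16 ≤ n := by rw [hn]; nlinarith
  by_cases h2 : (2 : K) = 0
  · have hsep := PerfectField.separable_of_irreducible hirr
    have hd : derivative (f K n) = 0 := by
      ext j
      rw [coeff_derivative, f_coeff]
      obtain ⟨t, ht⟩ := Nat.even_mul_succ_self (j + 1)
      have ht' : (((j + 1) * (j + 1 + 1) : ℕ) : K) = ((t + t : ℕ) : K) := by rw [ht]
      push_cast at ht'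
      split_ifs
      · push_cast
        simp only [coeff_zero]
        linear_combination ht' + (t : K) * h2
      · simp
    rw [separable_def, hd, isCoprime_zero_right] at hsep
    exact hirr.not_isUnit hsep
  have hnK : (n : K) + 2 = 2 * (2 * (k : K) + 1) ^ 2 := by rw [hn]; push_cast; ring
  have hev : (f K n).eval 1 = ((n : K) + 1) * (2 * (k : K) + 1) ^ 2 := by
    apply mul_left_cancel₀ h2
    rw [f_eval, hnK]; ring
  by_cases h0 : (f K n).eval 1 = 0
  · have hdeg := degree_eq_one_of_irreducible_of_root hirr (x := 1) h0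
    have c2 : (f K n).coeff 2 = 0 := coeff_eq_zero_of_degree_lt (by rw [hdeg]; norm_num)
    have c3 : (f K n).coeff 3 = 0 := coeff_eq_zero_of_degree_lt (by rw [hdeg]; norm_num)
    rw [f_coeff, if_pos (by omega)] at c2 c3
    push_cast at c2 c3
    exact one_ne_zero (α := K) (by linear_combination c3 - c2)
  have hn1 : (n : K) + 1 ≠ 0 := by
    intro h; apply h0; rw [hev, h, zero_mul]
  have hk1 : 2 * (k : K) + 1 ≠ 0 := by
    intro h; apply h0; rw [hev, h]; ring
  have hnd : (f K n).natDegree = n := by
    apply natDegree_eq_of_le_of_coeff_ne_zero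
    · rw [natDegree_le_iff_coeff_eq_zero]
      intro j hj
      rw [f_coeff, if_neg (by omega)]
    · rw [f_coeff, if_pos le_rfl]; exact hn1
  have hlc : (f K n).leadingCoeff = (n : K) + 1 := by
    rw [leadingCoeff, hnd, f_coeff, if_pos le_rfl]
  haveI : Fact (Irreducible (f K n)) := ⟨hirr⟩
  let L := AdjoinRoot (f K n)
  let pb : PowerBasis K L := AdjoinRoot.powerBasis hirr.ne_zero
  have hdim : pb.dim = n := by
    rw [AdjoinRoot.powerBasis_dim, hnd]
  have hgen : pb.gen = AdjoinRoot.root (f K n) := AdjoinRoot.powerBasis_gen _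
  haveI : Module.Finite K L := pb.finite
  haveI : Finite L := Module.finite_of_finite K
  have hfr : Module.finrank K L = n := by rw [pb.finrank, hdim]
  have hmin : minpoly K pb.gen = f K n * C ((n : K) + 1)⁻¹ := by
    rw [hgen, AdjoinRoot.minpoly_root hirr.ne_zero, hlc]
  have hroot : aeval pb.gen (f K n) = 0 := by
    rw [hgen, AdjoinRoot.aeval_eq, AdjoinRoot.mk_self]
  have hN1 : Algebra.norm K (1 - pb.gen) = (2 * (k : K) + 1) ^ 2 := by
    rw [Algebra.norm_eq_matrix_det pb.basis, map_sub, map_one]
    have h := Matrix.eval_charpoly (Algebra.leftMulMatrix pb.basis pb.gen) 1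
    rw [map_one, charpoly_leftMulMatrix, hmin] at h
    rw [← h, eval_mul, eval_C, hev]
    field_simp
  have hn1L : (n : L) + 1 ≠ 0 := by
    intro h
    apply hn1
    apply (algebraMap K L).injective
    simpa using h
  have hβ : (1 - pb.gen) * aeval pb.gen (derivative (minpoly K pb.gen))
      = algebraMap K L (-((n : K) + 2)) * pb.gen ^ n := by
    have h := f_der K pb.gen n
    rw [hroot] at h
    rw [hmin, derivative_mul, derivative_C, mul_zero, add_zero, map_mul, aeval_C]
    simp only [map_inv₀, map_add, map_natCast, map_one, map_neg, map_ofNat]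
    have hu := mul_inv_cancel₀ hn1L
    linear_combination (-((n : L) + 1)⁻¹) * h - ((n : L) + 2) * pb.gen ^ n * hu
  have hnorm := congrArg (Algebra.norm K) hβ
  rw [map_mul, map_mul, map_pow, Algebra.norm_algebraMap, hN1, hfr] at hnorm
  have hD := Algebra.discr_powerBasis_eq_norm K pb
  rw [hfr] at hD
  have hev2 : Even (n * (n - 1) / 2) := by
    refine ⟨2 * k * (k + 1) * (n - 1), ?_⟩
    apply Nat.div_eq_of_eq_mul_right (by norm_num)
    generalize n - 1 = u
    rw [hn]; ring
  rw [hev2.neg_one_pow, one_mul] at hD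
  have hodd : Odd (n - 1) := by
    refine ⟨4 * k * (k + 1) - 1, ?_⟩
    have : n = 2 * (4 * k * (k + 1)) := by rw [hn]; ring
    omega
  apply stick h2 pb.dim (n - 1) pb.basis (by omega) hodd
    ((-((n : K) + 2) * Algebra.norm K pb.gen) ^ (4 * k * (k + 1)) / (2 * (k : K) + 1))
  rw [hD, div_pow, eq_div_iff (pow_ne_zero 2 hk1), mul_comm, hnorm, ← pow_mul, ← mul_pow]
  congr 1
  rw [hn]; ring

theorem result (k p : ℕ) (hk : 1 ≤ k) (hp : p.Prime) :
    ¬ Irreducible ((s (8 * k * (k + 1))).map (Int.castRingHom (ZMod p))) := by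
  haveI : Fact p.Prime := ⟨hp⟩
  have h : (s (8 * k * (k + 1))).map (Int.castRingHom (ZMod p))
      = f (ZMod p) (8 * k * (k + 1)) := by
    unfold s f
    simp [Polynomial.map_sum]
  rw [h]
  exact not_irr (ZMod p) k hk

end Pool.Agent.Results.MP_2f4170_nt.IfPart
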